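import Mathlib
import Pool.Agent.Q260.Sep.Defs
import Pool.Agent.Q260.Sep.Core
import Pool.Agent.Q260.Sep.Chk

/-!
MP_ca000f_co, Q1: the coefficients of `Z_G(t)` are not always nonnegative. For the 2-connected
graph on nine vertices obtained from the five-cycle by replacing its vertices by cliques of
sizes 1, 3, 1, 2, 2, the coefficient of `t^4` in `Z_G(t)` is `-12`.
-/

set_option autoImplicit false

namespace Pool.Agent.Results.MP_ca000f_co.NegativeFourthCoefficient

open Pool.Agent.Q260.Sep

/-- the value of the fourth gamma coefficient after deleting an edge -/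
def val (p : Fin 9 × Fin 9) : ℕ :=
  if p ∈ [((0 : Fin 9), (1 : Fin 9)), (0, 2), (0, 3), (1, 4), (2, 4), (3, 4)] then 38 else 36

theorem exists_adj (p : Fin 9 × Fin 9) (hp : p ∈ edges9) :
    ∃ i j, (G9.deleteEdges {s(p.1, p.2)}).Adj i j := by
  have h : ∀ p ∈ edges9, ∃ i j : Fin 9, (i, j) ∈ rem p ∨ (j, i) ∈ rem p := by decide +kernel
  obtain ⟨i, j, hij⟩ := h p hp
  exact ⟨i, j, (lists_delete p hp i j).2 hij⟩

theorem chk_all : ∀ p ∈ edges9, chk (rem p) (val p) = true := by
  intro p hp
  simp only [edges9, List.mem_cons, List.not_mem_nil, or_false] at hp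
  rcases hp with rfl | rfl | rfl | rfl | rfl | rfl | rfl | rfl | rfl | rfl | rfl | rfl | rfl |
    rfl | rfl | rfl | rfl | rfl | rfl
  · exact chk_e01
  · exact chk_e02
  · exact chk_e03
  · exact chk_e12
  · exact chk_e13
  · exact chk_e23
  · exact chk_e14
  · exact chk_e24
  · exact chk_e34
  · exact chk_e45
  · exact chk_e46
  · exact chk_e56
  · exact chk_e57
  · exact chk_e58
  · exact chk_e67
  · exact chk_e68
  · exact chk_e78
  · exact chk_e07
  · exact chk_e08

theorem gamma_all (p : Fin 9 × Fin 9) (hp : p ∈ edges9) :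
    gammaSep (G9.deleteEdges {s(p.1, p.2)}) 4 = val p :=
  gammaSep_of_chk injOn_G9 _ (le_G9 p) (exists_adj p hp) (rem p) (lists_delete p hp) (val p)
    (chk_all p hp)

theorem gamma_G9 : gammaSep G9 4 = 36 :=
  gammaSep_of_chk injOn_G9 G9 le_rfl ⟨0, 1, Or.inl (by decide)⟩ edges9 lists_G9 36 chk_g

theorem edgeSet_G9 :
    G9.edgeSet = ((edges9.map (fun p => s(p.1, p.2))).toFinset : Finset (Sym2 (Fin 9))) := by
  ext e
  induction e using Sym2.ind with
  | _ i j =>
    rw [SimpleGraph.mem_edgeSet, Finset.mem_coe, List.mem_toFinset, List.mem_map]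
    constructor
    · rintro (h | h)
      · exact ⟨(i, j), h, rfl⟩
      · exact ⟨(j, i), h, Sym2.eq_swap⟩
    · rintro ⟨⟨a, b⟩, h, he⟩
      rw [Sym2.eq_iff] at he
      rcases he with ⟨rfl, rfl⟩ | ⟨rfl, rfl⟩
      · exact Or.inl h
      · exact Or.inr h

theorem nodup_edges : (edges9.map (fun p => s(p.1, p.2))).Nodup := by decide

theorem zCoeff_G9 : zCoeff G9 4 = -12 := by
  unfold zCoeff
  rw [edgeSet_G9, finsum_mem_coe_finset, List.sum_toFinset _ nodup_edges, List.map_map]
  have h : edges9.map ((fun e => gammaSep G9 4 - gammaSep (G9.deleteEdges {e}) 4) ∘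
      fun p => s(p.1, p.2)) = edges9.map (fun p => (36 : ℤ) - (val p : ℤ)) := by
    apply List.map_congr_left
    intro p hp
    simp only [Function.comp_apply]
    rw [gamma_all p hp, gamma_G9]
  rw [h]
  decide

/-- **Answer to Q1 (negative)**: there is a 2-connected graph, on nine vertices, for which the
coefficient of `t^4` in `Z_G(t)` is `-12`. -/
theorem result : ∃ G : SimpleGraph (Fin 9), TwoConnected G ∧ zCoeff G 4 = -12 :=
  ⟨G9, twoConnected_G9, zCoeff_G9⟩

end Pool.Agent.Results.MP_ca000f_co.NegativeFourthCoefficient
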